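import Pool.Agent.H131R5.LD6

set_option autoImplicit false

noncomputable section

open MeasureTheory
open scoped ENNReal

namespace Pool.Agent.Results.MP_5f4cdd_gt.FewVertices

/-- The `L^p`-Mahler volume `M_p(K) = vol(K) ∫ exp(-h_{p,K}(y)) dy` for `0 < p < ∞`, where
`exp(-h_{p,K}(y)) = ((1/vol K) ∫_K exp(p⟨x,y⟩) dx)^(-1/p)`. -/
def mahlerVolume {n : ℕ} (p : ℝ) (K : Set (Fin n → ℝ)) : ℝ≥0∞ :=
  volume K * ∫⁻ y : Fin n → ℝ, ENNReal.ofReal
    (((∫ x in K, Real.exp (p * ∑ i, x i * y i)) / (volume K).toReal) ^ (-(1 / p)))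

/-- the standard simplex `Δ_n` -/
def simplex (n : ℕ) : Set (Fin n → ℝ) := {z | (∀ i, 0 ≤ z i) ∧ ∑ i, z i ≤ 1}

/-- the infimum of `M_p(Δ_n - x)` over `x ∈ Δ_n` -/
def simplexInf (n : ℕ) (p : ℝ) : ℝ≥0∞ :=
  ⨅ x ∈ simplex n, mahlerVolume p ((fun z : Fin n → ℝ => z - x) '' simplex n)

/-- `0` is a convex combination of all the points of `S`, with positive weights -/
def Balanced {n : ℕ} (S : Finset (Fin n → ℝ)) : Prop :=
  ∃ μ : (Fin n → ℝ) → ℝ, (∀ x ∈ S, 0 < μ x) ∧ ∑ x ∈ S, μ x = 1 ∧ ∑ x ∈ S, μ x • x = 0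

/-- the convex hull of the union of the sets in the list `L` and of `T` -/
def joinHull {n : ℕ} (L : List (Finset (Fin n → ℝ))) (T : Finset (Fin n → ℝ)) :
    Set (Fin n → ℝ) :=
  convexHull ℝ ({x | ∃ S ∈ L, x ∈ S} ∪ (T : Set (Fin n → ℝ)))

/-- **The non-symmetric `L^p`-Mahler inequality for polytopes with at most `n + 2` vertices, with
strict inequality for all of them except the simplices, and for free sums of simplices.** -/
theorem result :
    -- polytopes with at most `n + 2` vertices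
    (∀ (n : ℕ) (p : ℝ), 0 < p → ∀ P : Finset (Fin n → ℝ), P.card ≤ n + 2 →
      (interior (convexHull ℝ (P : Set (Fin n → ℝ)))).Nonempty →
      simplexInf n p ≤ mahlerVolume p (convexHull ℝ (P : Set (Fin n → ℝ))) ∧
      -- strict inequality unless the polytope is a simplex
      ((∀ Q : Finset (Fin n → ℝ), Q.card ≤ n + 1 →
          convexHull ℝ (P : Set (Fin n → ℝ)) ≠ convexHull ℝ (Q : Set (Fin n → ℝ))) →
        simplexInf n p < mahlerVolume p (convexHull ℝ (P : Set (Fin n → ℝ))))) ∧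
    -- free sums of simplices
    (∀ (n : ℕ) (p : ℝ), 0 < p → ∀ (L : List (Finset (Fin n → ℝ))) (T : Finset (Fin n → ℝ)),
      (∀ S ∈ L, Balanced S) → (0 : Fin n → ℝ) ∈ convexHull ℝ (T : Set (Fin n → ℝ)) →
      (L.map fun S => S.card - 1).sum + T.card ≤ n + 1 → (interior (joinHull L T)).Nonempty →
      ∀ z : Fin n → ℝ,
        simplexInf n p ≤ mahlerVolume p ((fun x : Fin n → ℝ => x - z) '' joinHull L T)) := by
  refine ⟨?_, ?_⟩
  · intro n p hp P hP hi
    have e : (fun x : Fin n → ℝ => x - 0) '' convexHull ℝ (P : Set (Fin n → ℝ)) =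
        convexHull ℝ (P : Set (Fin n → ℝ)) := by simp
    constructor
    · have h := Pool.Agent.H131R5.LC.few hp P hP hi 0
      rw [e] at h
      exact h
    · intro hns
      have h := Pool.Agent.H131R5.LC.few_strict hp P hP hi hns 0
      rw [e] at h
      exact h
  · intro n p hp L T hL hT hcard hi z
    exact Pool.Agent.H131R5.LC.fs hp L T hL hT hcard hi z

end Pool.Agent.Results.MP_5f4cdd_gt.FewVertices
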