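import Pool.Agent.H131R5.LM8

set_option autoImplicit false

noncomputable section

open MeasureTheory
open scoped ENNReal

namespace Pool.Agent.Results.MP_5f4cdd_gt.LargeP

/-- convex bodies in `ℝⁿ` -/
structure IsConvexBody {n : ℕ} (K : Set (Fin n → ℝ)) : Prop where
  convex : Convex ℝ K
  isCompact : IsCompact K
  interior_nonempty : (interior K).Nonempty

/-- The `L^p`-Mahler volume `M_p(K) = vol(K) ∫ exp(-h_{p,K}(y)) dy` for `0 < p < ∞`, where
`exp(-h_{p,K}(y)) = ((1/vol K) ∫_K exp(p⟨x,y⟩) dx)^(-1/p)`. -/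
def mahlerVolume {n : ℕ} (p : ℝ) (K : Set (Fin n → ℝ)) : ℝ≥0∞ :=
  volume K * ∫⁻ y : Fin n → ℝ, ENNReal.ofReal
    (((∫ x in K, Real.exp (p * ∑ i, x i * y i)) / (volume K).toReal) ^ (-(1 / p)))

/-- the standard simplex `Δ_n` -/
def simplex (n : ℕ) : Set (Fin n → ℝ) := {z | (∀ i, 0 ≤ z i) ∧ ∑ i, z i ≤ 1}

/-- the infimum of `M_p(Δ_n - x)` over `x ∈ Δ_n` -/
def simplexInf (n : ℕ) (p : ℝ) : ℝ≥0∞ :=
  ⨅ x ∈ simplex n, mahlerVolume p ((fun z : Fin n → ℝ => z - x) '' simplex n)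

/-- the Minkowski asymmetry of `K` is at most `lam`: some translate of `lam K` contains `-K` -/
def AsymmetryLE {n : ℕ} (K : Set (Fin n → ℝ)) (lam : ℝ) : Prop :=
  1 ≤ lam ∧ ∃ z : Fin n → ℝ, ∀ x ∈ K, ∃ k ∈ K, -x = z + lam • k

/-- simplices in `ℝ³`: convex hulls of four affinely independent points -/
def IsSimplex (K : Set (Fin 3 → ℝ)) : Prop :=
  ∃ v : Fin 4 → Fin 3 → ℝ, AffineIndependent ℝ v ∧ K = convexHull ℝ (Set.range v)

lemma inf_le (n : ℕ) (p : ℝ) :
    simplexInf n p ≤ Pool.Agent.H131R5.LM.Mp p (Pool.Agent.H131R5.LM.Sn n) := by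
  refine (iInf₂_le _ (Pool.Agent.H131R5.LM.center_mem (n := n))).trans (le_of_eq ?_)
  have h := Pool.Agent.H131R5.LM.image_Dn (n := n)
  change Pool.Agent.H131R5.LM.Mp p
    ((fun z : Fin n → ℝ => z - fun _ => 1 / ((n:ℝ) + 1)) '' Pool.Agent.H131R5.LM.Dn n) = _
  rw [h]

open Pool.Agent.H131R5.LM in
lemma asym {n : ℕ} (hn : 1 ≤ n) {K : Set (Fin n → ℝ)} (hK : IsConvexBody K) {lam : ℝ}
    (h : AsymmetryLE K lam) {p : ℝ} (hp : 0 < p)
    (hcond : al p ^ n * H296R3.NM.SS ((1 + lam) / 2) n ≤ H296R3.NM.aa n) :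
    simplexInf n p < mahlerVolume p K := by
  obtain ⟨h1, z, hz⟩ := h
  exact (inf_le n p).trans_lt
    (asym_compare hn hK.convex hK.isCompact hK.interior_nonempty hp h1 hz hcond)

/-- **The non-symmetric `L^p`-Mahler inequality for large `p`.** -/
theorem result :
    -- an explicit condition on the dimension, the asymmetry and `p`
    (∀ n : ℕ, 1 ≤ n → ∀ K : Set (Fin n → ℝ), IsConvexBody K → ∀ lam : ℝ, AsymmetryLE K lam →
      ∀ p : ℝ, 0 < p →
        ((1 + p) ^ (1 / p) * ((1 + p) / p)) ^ n *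
            ∑ k ∈ Finset.range (n + 1), ((1 + lam) / 2) ^ k ≤
          4 ^ n * n.factorial / ((n:ℝ) + 1) ^ n →
        simplexInf n p < mahlerVolume p K) ∧
    -- bodies symmetric about some point, all dimensions, all `p ≥ 64`
    (∀ n : ℕ, 2 ≤ n → ∀ K : Set (Fin n → ℝ), IsConvexBody K →
      (∃ z : Fin n → ℝ, ∀ x ∈ K, z - x ∈ K) →
      ∀ p : ℝ, 64 ≤ p → simplexInf n p < mahlerVolume p K) ∧
    -- bodies of asymmetry at most `4/3`, all dimensions, all `p ≥ 2500`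
    (∀ n : ℕ, 2 ≤ n → ∀ K : Set (Fin n → ℝ), IsConvexBody K → ∀ lam : ℝ, lam ≤ 4 / 3 →
      AsymmetryLE K lam → ∀ p : ℝ, 2500 ≤ p → simplexInf n p < mahlerVolume p K) ∧
    -- bodies of asymmetry at most `lam < 8/e - 1 = 1.943...`, high dimensions, large `p`
    (∀ lam : ℝ, lam < 8 / Real.exp 1 - 1 → ∃ n0 : ℕ, ∃ p0 : ℝ,
      ∀ n : ℕ, n0 ≤ n → ∀ K : Set (Fin n → ℝ), IsConvexBody K → AsymmetryLE K lam →
        ∀ p : ℝ, p0 ≤ p → simplexInf n p < mahlerVolume p K) ∧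
    -- dimension three: every body that is not a simplex, all its translates, large `p`
    (∀ K : Set (Fin 3 → ℝ), IsConvexBody K → ¬ IsSimplex K → ∃ p0 : ℝ,
      ∀ p : ℝ, p0 ≤ p → ∀ z : Fin 3 → ℝ,
        simplexInf 3 p < mahlerVolume p ((fun x : Fin 3 → ℝ => x - z) '' K)) := by
  refine ⟨fun n hn K hK lam h p hp hcond => asym hn hK h hp hcond, ?_, ?_, ?_, ?_⟩
  · intro n hn K hK hsym p hp
    have hp0 : 0 < p := by linarith
    obtain ⟨z, hz⟩ := hsym
    have h : AsymmetryLE K 1 := by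
      refine ⟨le_rfl, -z, fun x hx => ⟨z - x, hz x hx, ?_⟩⟩
      rw [one_smul]; abel
    refine asym (by omega) hK h hp0 ?_
    have h2 := Pool.Agent.H131R5.LM.numA (Pool.Agent.H131R5.LM.al_pos hp0).le
      (Pool.Agent.H131R5.LM.al_64 hp) n hn
    have e : ((1:ℝ) + 1) / 2 = 1 := by norm_num
    rw [e]
    exact h2
  · intro n hn K hK lam hlam h p hp
    have hp0 : 0 < p := by linarith
    have h1 := h.1
    refine asym (by omega) hK h hp0 ?_
    have h2 := Pool.Agent.H131R5.LM.numB (Pool.Agent.H131R5.LM.al_pos hp0).le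
      (Pool.Agent.H131R5.LM.al_2500 hp) n hn
    refine le_trans ?_ h2
    exact mul_le_mul_of_nonneg_left (H296R3.NM.SS_mono (by linarith) (by linarith) n)
      (pow_nonneg (Pool.Agent.H131R5.LM.al_pos hp0).le n)
  · intro lam hlam
    rcases lt_or_ge lam 1 with h1 | h1
    · exact ⟨0, 0, fun n _ K _ h => absurd h.1 (not_le.2 h1)⟩
    have hE : 0 < Real.exp 1 := Real.exp_pos 1
    set c : ℝ := (1 + lam) / 2 with hc
    have hc1 : 1 ≤ c := by rw [hc]; linarith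
    have hc2 : c < 4 / Real.exp 1 := by
      have : 4 / Real.exp 1 = (8 / Real.exp 1) / 2 := by ring
      rw [this, hc]; linarith
    set a : ℝ := (4 / Real.exp 1 / c + 1) / 2 with ha
    have hc0 : 0 < c := by linarith
    have ha1 : 1 < a := by
      have : 1 < 4 / Real.exp 1 / c := (one_lt_div hc0).2 hc2
      rw [ha]; linarith
    have hac : a * c < 4 / Real.exp 1 := by
      have : a * c = (4 / Real.exp 1 + c) / 2 := by rw [ha]; field_simp
      rw [this]; linarith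
    obtain ⟨n0, hn0⟩ := Pool.Agent.H131R5.LM.numC ha1.le hc1 hac
    obtain ⟨p0, hp0, hp0'⟩ := Pool.Agent.H131R5.LM.al_ev ha1
    refine ⟨max n0 1, p0, fun n hn K hK h p hp => ?_⟩
    have hp1 : 0 < p := hp0.trans_le hp
    refine asym ((le_max_right _ _).trans hn) hK h hp1 ?_
    refine le_trans ?_ (hn0 n ((le_max_left _ _).trans hn))
    have h3 : Pool.Agent.H131R5.LM.al p ^ n ≤ a ^ n :=
      pow_le_pow_left₀ (Pool.Agent.H131R5.LM.al_pos hp1).le (hp0' p hp) n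
    refine mul_le_mul_of_nonneg_right h3 ?_
    exact Finset.sum_nonneg fun k _ => by positivity
  · intro K hK hns
    obtain ⟨p0, _, h⟩ := Pool.Agent.H131R5.LM.dim3_compare hK.convex hK.isCompact
      hK.interior_nonempty hns
    exact ⟨p0, fun p hp z => (inf_le 3 p).trans_lt (h p hp z)⟩

end Pool.Agent.Results.MP_5f4cdd_gt.LargeP
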