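import Pool.Agent.H131R5.LD8

set_option autoImplicit false

noncomputable section

open MeasureTheory
open scoped ENNReal

namespace Pool.Agent.Results.MP_5f4cdd_gt.Minimizers

/-- a convex body: compact, convex, with interior points -/
def IsConvexBody {n : ℕ} (K : Set (Fin n → ℝ)) : Prop :=
  Convex ℝ K ∧ IsCompact K ∧ (interior K).Nonempty

/-- The `L^p`-Mahler volume `M_p(K) = vol(K) ∫ exp(-h_{p,K}(y)) dy` for `0 < p < ∞`, where
`exp(-h_{p,K}(y)) = ((1/vol K) ∫_K exp(p⟨x,y⟩) dx)^(-1/p)`. -/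
def mahlerVolume {n : ℕ} (p : ℝ) (K : Set (Fin n → ℝ)) : ℝ≥0∞ :=
  volume K * ∫⁻ y : Fin n → ℝ, ENNReal.ofReal
    (((∫ x in K, Real.exp (p * ∑ i, x i * y i)) / (volume K).toReal) ^ (-(1 / p)))

/-- the infimum of `M_p` over all translates of `K` -/
def translateInf {n : ℕ} (p : ℝ) (K : Set (Fin n → ℝ)) : ℝ≥0∞ :=
  ⨅ z : Fin n → ℝ, mahlerVolume p ((fun x : Fin n → ℝ => x - z) '' K)

/-- `K_t = {x + t β(x) θ : x ∈ K}` -/
def move {n : ℕ} (θ : Fin n → ℝ) (β : (Fin n → ℝ) → ℝ) (t : ℝ) (K : Set (Fin n → ℝ)) :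
    Set (Fin n → ℝ) :=
  (fun x : Fin n → ℝ => x + (t * β x) • θ) '' K

/-- `θ ≠ 0`, and `β` is continuous and constant along `θ` -/
def IsSpeed {n : ℕ} (θ : Fin n → ℝ) (β : (Fin n → ℝ) → ℝ) : Prop :=
  θ ≠ 0 ∧ Continuous β ∧ ∀ (x : Fin n → ℝ) (s : ℝ), β (x + s • θ) = β x

/-- `β` is affine on `K` -/
def AffineOn {n : ℕ} (β : (Fin n → ℝ) → ℝ) (K : Set (Fin n → ℝ)) : Prop :=
  ∀ x ∈ K, ∀ y ∈ K, ∀ t : ℝ, 0 < t → t < 1 →
    β ((1 - t) • x + t • y) = (1 - t) * β x + t * β y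

/-- the cap `{x ∈ K : s ≤ ⟨x, ν⟩}` of `K` contains a point with `s < ⟨x, ν⟩` and is strongly
convex: for some `c > 0`, all points `x` of the cap, all points `y` of `K` and all `t ∈ [0, 1]`,
the ball with radius `c t (1 - t) |x - y|²` around `(1 - t) x + t y` lies in `K` -/
def StronglyConvexCap {n : ℕ} (K : Set (Fin n → ℝ)) (ν : Fin n → ℝ) (s : ℝ) : Prop :=
  (∃ x ∈ K, s < ∑ i, x i * ν i) ∧
  ∃ c : ℝ, 0 < c ∧ ∀ x ∈ K, s ≤ ∑ i, x i * ν i → ∀ y ∈ K, ∀ t : ℝ, 0 ≤ t → t ≤ 1 →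
    ∀ w : Fin n → ℝ, ‖w‖ ≤ c * (t * (1 - t)) * ‖x - y‖ ^ 2 → (1 - t) • x + t • y + w ∈ K

/-- `K` minimizes `M_p` among all convex bodies in all positions -/
def IsMinimizer {n : ℕ} (p : ℝ) (K : Set (Fin n → ℝ)) : Prop :=
  IsConvexBody K ∧ ∀ L : Set (Fin n → ℝ), IsConvexBody L → mahlerVolume p K ≤ mahlerVolume p L

/-- **Shadow movements and the structure of the minimizers of the `L^p`-Mahler volume.** -/
theorem result (n : ℕ) (p : ℝ) (hp : 0 < p) :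
    -- `1 / inf_z M_p(K_t - z)` is convex along shadow movements
    (∀ K : Set (Fin n → ℝ), IsConvexBody K → ∀ θ β, IsSpeed θ β → ∀ a b : ℝ, 0 < a → 0 < b →
      ENNReal.ofReal (a + b) * (translateInf p K)⁻¹ ≤
        ENNReal.ofReal b * (translateInf p (move θ β (-a) K))⁻¹ +
          ENNReal.ofReal a * (translateInf p (move θ β b K))⁻¹) ∧
    -- strict inequality when the speed is not affine
    (∀ K : Set (Fin n → ℝ), IsConvexBody K → ∀ θ β, IsSpeed θ β → ¬ AffineOn β K →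
      ∀ a b : ℝ, 0 < a → 0 < b → ∀ z : Fin n → ℝ,
      min (translateInf p (move θ β (-a) K)) (translateInf p (move θ β b K)) <
        mahlerVolume p ((fun x : Fin n → ℝ => x - z) '' K)) ∧
    -- minimizers are rigid
    (∀ K : Set (Fin n → ℝ), IsMinimizer p K → ∀ θ β, IsSpeed θ β → ∀ a b : ℝ, 0 < a → 0 < b →
      Convex ℝ (move θ β (-a) K) → Convex ℝ (move θ β b K) → AffineOn β K) ∧
    -- minimizers have no strongly convex cap
    (2 ≤ n → ∀ K : Set (Fin n → ℝ), IsMinimizer p K → ∀ (ν : Fin n → ℝ) (s : ℝ), ν ≠ 0 →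
      ¬ StronglyConvexCap K ν s) ∧
    -- the local version: arbitrarily close to a body with a strongly convex cap there are convex
    -- bodies which have a smaller `L^p`-Mahler volume
    (2 ≤ n → ∀ K : Set (Fin n → ℝ), IsConvexBody K → ∀ (ν : Fin n → ℝ) (s : ℝ), ν ≠ 0 →
      StronglyConvexCap K ν s → ∀ δ : ℝ, 0 < δ →
      ∃ L : Set (Fin n → ℝ), IsConvexBody L ∧ (∀ x ∈ K, ∃ y ∈ L, ‖x - y‖ ≤ δ) ∧
        (∀ y ∈ L, ∃ x ∈ K, ‖x - y‖ ≤ δ) ∧ translateInf p L < mahlerVolume p K) := by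
  have hNA : ∀ (K : Set (Fin n → ℝ)) (β : (Fin n → ℝ) → ℝ), ¬ AffineOn β K →
      Pool.Agent.H131R5.LC.NA K β := by
    intro K β h
    unfold AffineOn at h
    push Not at h
    obtain ⟨x, hx, y, hy, t, h0, h1, hne⟩ := h
    exact ⟨x, hx, y, hy, t, h0, h1, hne⟩
  refine ⟨?_, ?_, ?_, ?_, ?_⟩
  · rintro K ⟨hconv, hc, hi⟩ θ β ⟨hθ, hβ, hinv⟩ a b ha hb
    exact Pool.Agent.H131R5.LC.recip hp hconv hc hi hθ hβ hinv ha hb
  · rintro K ⟨hconv, hc, hi⟩ θ β ⟨hθ, hβ, hinv⟩ hna a b ha hb z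
    exact Pool.Agent.H131R5.LC.LB_strict hp hconv hc hi hθ hβ hinv ha hb (hNA K β hna)
      (c := min (translateInf p (move θ β (-a) K)) (translateInf p (move θ β b K)))
      (fun z => (min_le_right _ _).trans (iInf_le _ z))
      (fun z => (min_le_left _ _).trans (iInf_le _ z)) z
  · rintro K ⟨⟨hconv, hc, hi⟩, hmin⟩ θ β ⟨hθ, hβ, hinv⟩ a b ha hb hca hcb
    by_contra hna
    exact Pool.Agent.H131R5.LC.rigid hp hconv hc hi (fun L h1 h2 h3 => hmin L ⟨h1, h2, h3⟩)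
      hθ hβ hinv ha hb hca hcb (hNA K β hna)
  · rintro hn K ⟨⟨hconv, hc, hi⟩, hmin⟩ ν s hν ⟨hs, hcap⟩
    exact Pool.Agent.H131R5.LC.no_cap hp hn hconv hc hi (fun L h1 h2 h3 => hmin L ⟨h1, h2, h3⟩)
      hν hs hcap
  · rintro hn K ⟨hconv, hc, hi⟩ ν s hν ⟨hs, hcap⟩ δ hδ
    obtain ⟨L, h1, h2, h3, h4, h5, h6⟩ :=
      Pool.Agent.H131R5.LC.cap_local hp hn hconv hc hi hν hs hcap hδ
    exact ⟨L, ⟨h1, h2, h3⟩, h4, h5, h6⟩

end Pool.Agent.Results.MP_5f4cdd_gt.Minimizers
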