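import Pool.Agent.H518R3.LP10

set_option autoImplicit false

noncomputable section

open MeasureTheory Set
open scoped ENNReal

namespace Pool.Agent.Results.MP_5f4cdd_gt.PlanarLp

/-- the `L^p` Mahler volume `|L| ∫ exp (-h_{p,L}(y)) dy` of a set `L ⊆ ℝ²`, where
`exp (-h_{p,L}(y))` is the power `-1/p` of the average of `exp (p ⟨x, y⟩)` over `L` -/
def Mp (p : ℝ) (L : Set (Fin 2 → ℝ)) : ℝ≥0∞ := volume L *
  ∫⁻ y : Fin 2 → ℝ, ENNReal.ofReal
    (((∫ x in L, Real.exp (p * ∑ i, x i * y i)) / (volume L).toReal) ^ (-(1 / p)))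

/-- the standard triangle -/
def Triangle : Set (Fin 2 → ℝ) := {z | (∀ i, 0 ≤ z i) ∧ ∑ i, z i ≤ 1}

/-- **The non-symmetric `L^p` Mahler inequality in the plane**, for every real `p > 0` and every
planar convex body, in any position. -/
theorem result : ∀ p : ℝ, 0 < p → ∀ K : Set (Fin 2 → ℝ), Convex ℝ K → IsCompact K →
    (interior K).Nonempty →
    (⨅ x ∈ Triangle, Mp p ((fun z : Fin 2 → ℝ => z - x) '' Triangle)) ≤ Mp p K := by
  intro p hp K hc hK hi
  exact H518R3.LP.planar hp K hc hK hi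

end Pool.Agent.Results.MP_5f4cdd_gt.PlanarLp
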